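import Mathlib
import Pool.Agent.helper84.DM.Defs

/-!
# DM project, module PJ: the Poisson-Jensen formula on discs
-/

set_option autoImplicit false

open Complex Metric MeasureTheory Filter Set

namespace Pool.Agent.helper84.DM

lemma PJ_kernel_cont {c w : ℂ} {R : ℝ} (hw : w ∈ ball c R) :
    Continuous (fun θ : ℝ => poissonKernel c w (circleMap c R θ)) := by
  have hR : 0 < R := pos_of_mem_ball hw
  have hw' : ‖w - c‖ < R := by rwa [mem_ball_iff_norm] at hw
  have hne : ∀ θ : ℝ, ‖(circleMap c R θ - c) - (w - c)‖ ^ 2 ≠ 0 := by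
    intro θ h
    have h1 : (circleMap c R θ - c) - (w - c) = 0 := by
      have := pow_eq_zero_iff (two_ne_zero) |>.mp h
      exact norm_eq_zero.mp this
    have h2 : ‖circleMap c R θ - c‖ = R := by
      rw [circleMap_sub_center, norm_circleMap_zero, abs_of_pos hR]
    rw [sub_eq_zero] at h1
    rw [h1] at h2
    linarith
  simp only [poissonKernel_def]
  have hc : Continuous (fun θ : ℝ => circleMap c R θ) := continuous_circleMap c R
  exact Continuous.div (by fun_prop) (by fun_prop) hne

lemma PJ_int {c w : ℂ} {R : ℝ} (hw : w ∈ ball c R) {ψ : ℂ → ℝ} (h : CircleIntegrable ψ c R) :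
    CircleIntegrable (fun z => poissonKernel c w z * ψ z) c R := by
  unfold CircleIntegrable at *
  exact IntervalIntegrable.continuousOn_mul h (PJ_kernel_cont hw).continuousOn

lemma PJ_norm_symm (R : ℝ) (a b : ℂ) :
    ‖(R : ℂ) ^ 2 - (starRingEnd ℂ) a * b‖ = ‖(R : ℂ) ^ 2 - (starRingEnd ℂ) b * a‖ := by
  rw [← Complex.norm_conj]
  congr 1
  simp [mul_comm]

lemma PJ_ne {R : ℝ} {a b : ℂ} (hR : 0 < R) (ha : ‖a‖ < R) (hb : ‖b‖ ≤ R) :
    (R : ℂ) ^ 2 - (starRingEnd ℂ) a * b ≠ 0 := by
  intro h
  rw [sub_eq_zero] at h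
  have h1 := congrArg norm h
  rw [norm_pow, Complex.norm_real, norm_mul, Complex.norm_conj, Real.norm_of_nonneg hR.le] at h1
  have h2 : ‖a‖ * ‖b‖ ≤ ‖a‖ * R := mul_le_mul_of_nonneg_left hb (norm_nonneg _)
  nlinarith

lemma PJ_single {c w u : ℂ} {R : ℝ} (hw : w ∈ ball c R) (hu : u ∈ closedBall c R) :
    Real.circleAverage (fun z => poissonKernel c w z * Real.log ‖z - u‖) c R =
      Real.log (‖(R : ℂ) ^ 2 - (starRingEnd ℂ) (w - c) * (u - c)‖ / R) := by
  have hR : 0 < R := pos_of_mem_ball hw
  have hu' : ‖u - c‖ ≤ R := by rwa [mem_closedBall_iff_norm] at hu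
  rcases eq_or_lt_of_le hu' with h | h
  · -- zero on the circle
    have hus : u ∈ sphere c R := by rw [mem_sphere_iff_norm]; exact h
    have h1 := circleAverage_re_herglotzRieszKernel_mul_log hus hw
    rw [← poissonKernel_eq_re_herglotzRieszKernel] at h1
    have e : (fun z => poissonKernel c w z * Real.log ‖z - u‖) =
      (poissonKernel c w * fun z => Real.log ‖z - u‖) := rfl
    rw [e, h1]
    congr 1
    have h2 : (R : ℂ) ^ 2 = (starRingEnd ℂ) (u - c) * (u - c) := by
      rw [mul_comm, Complex.mul_conj, Complex.normSq_eq_norm_sq, h]; push_cast; rfl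
    rw [h2, ← sub_mul, ← map_sub, norm_mul, Complex.norm_conj, h, mul_div_assoc, div_self hR.ne',
      mul_one, norm_sub_rev]
    congr 1; ring
  · -- zero inside
    have hna : ∀ z ∈ closedBall c R, ((R : ℂ) ^ 2 - (starRingEnd ℂ) (u - c) * (z - c)) / R ≠ 0 := by
      intro z hz
      rw [mem_closedBall_iff_norm] at hz
      exact div_ne_zero (PJ_ne hR h hz) (by exact_mod_cast hR.ne')
    have hharm : InnerProductSpace.HarmonicOnNhd
        (fun z : ℂ => Real.log ‖((R : ℂ) ^ 2 - (starRingEnd ℂ) (u - c) * (z - c)) / R‖)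
        (closedBall c R) := by
      intro z hz
      exact AnalyticAt.harmonicAt_log_norm (by fun_prop) (hna z hz)
    have h1 := hharm.circleAverage_poissonKernel_smul hw
    have h2 : Real.circleAverage (fun z => poissonKernel c w z * Real.log ‖z - u‖) c R =
        Real.circleAverage (poissonKernel c w •
          fun z : ℂ => Real.log ‖((R : ℂ) ^ 2 - (starRingEnd ℂ) (u - c) * (z - c)) / R‖) c R := by
      apply Real.circleAverage_congr_sphere
      intro z hz
      rw [abs_of_pos hR, mem_sphere_iff_norm] at hz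
      simp only [Pi.smul_apply', smul_eq_mul]
      congr 2
      have h3 : (R : ℂ) ^ 2 = (starRingEnd ℂ) (z - c) * (z - c) := by
        rw [mul_comm, Complex.mul_conj, Complex.normSq_eq_norm_sq, hz]; push_cast; rfl
      rw [h3, ← sub_mul, ← map_sub, norm_div, norm_mul, Complex.norm_conj, hz, Complex.norm_real,
        Real.norm_of_nonneg hR.le, mul_div_assoc, div_self hR.ne', mul_one]
      congr 1; ring
    rw [h2, h1]
    rw [norm_div, Complex.norm_real, Real.norm_of_nonneg hR.le, PJ_norm_symm]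

theorem poisson_jensen {f : ℂ → ℂ} {c w : ℂ} {R : ℝ} (hR : 0 < R)
    (hf : AnalyticOnNhd ℂ f (closedBall c R)) (hw : w ∈ ball c R) (hfw : f w ≠ 0) :
    CircleIntegrable (fun z => poissonKernel c w z * Real.log ‖f z‖) c R ∧
    Real.circleAverage (fun z => poissonKernel c w z * Real.log ‖f z‖) c R
      = Real.log ‖f w‖ + ∑ᶠ u ∈ {u : ℂ | u ∈ closedBall c R ∧ f u = 0},
          (analyticOrderNatAt f u : ℝ) *
            Real.log (‖(R : ℂ) ^ 2 - (starRingEnd ℂ) (w - c) * (u - c)‖ / (R * ‖w - u‖)) := by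
  have hRabs : |R| = R := abs_of_pos hR
  have hwcb : w ∈ closedBall c R := ball_subset_closedBall hw
  have hsph : sphere c |R| ⊆ closedBall c R := by rw [hRabs]; exact sphere_subset_closedBall
  have hmer : MeromorphicOn f (closedBall c R) := hf.meromorphicOn
  have hint : CircleIntegrable (fun z => Real.log ‖f z‖) c R :=
    (hf.mono hsph).meromorphicOn.circleIntegrable_log_norm
  refine ⟨PJ_int hw hint, ?_⟩
  -- orders are finite
  have hfin : ∀ u : closedBall c R, meromorphicOrderAt f u ≠ ⊤ := by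
    rw [← hmer.exists_meromorphicOrderAt_ne_top_iff_forall
      ⟨nonempty_closedBall.mpr hR.le, (convex_closedBall c R).isPreconnected⟩]
    refine ⟨⟨w, hwcb⟩, ?_⟩
    have : meromorphicOrderAt f w = 0 := by
      rw [(hf w hwcb).meromorphicOrderAt_eq, (hf w hwcb).analyticOrderAt_eq_zero.mpr hfw]
      rfl
    simp [this]
  set D := MeromorphicOn.divisor f (closedBall c R) with hD
  have hDfin : D.support.Finite := D.finiteSupport (isCompact_closedBall c R)
  obtain ⟨g, hg1, hg2, hg3⟩ := hmer.extract_zeros_poles hfin hDfin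
  have hlog := MeromorphicOn.extract_zeros_poles_log hg2 hg3
  have hgint : CircleIntegrable (fun z => Real.log ‖g z‖) c R :=
    (hg1.mono hsph).meromorphicOn.circleIntegrable_log_norm
  -- value at w
  have hAcc : AccPt w (𝓟 (closedBall c R)) := by
    apply accPt_iff_frequently_nhdsNE.mpr
    apply compl_notMem
    apply mem_nhdsWithin.mpr
    refine ⟨ball c R, isOpen_ball, hw, ?_⟩
    rintro x ⟨hx, _⟩
    simpa using ball_subset_closedBall hx
  have hval : Real.log ‖f w‖ = ∑ᶠ u, (D u : ℝ) * Real.log ‖w - u‖ + Real.log ‖g w‖ := by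
    have h := MeromorphicOn.log_norm_meromorphicTrailingCoeffAt_extract_zeros_poles hDfin hwcb hAcc
      (hmer w hwcb) (hg1 w hwcb) (hg2 ⟨w, hwcb⟩) hg3
    rwa [(hf w hwcb).meromorphicTrailingCoeffAt_of_ne_zero hfw] at h
  -- finite sums
  set S := hDfin.toFinset with hS
  have hsumF : ∀ F : ℂ → ℝ, ∑ᶠ u, (D u : ℝ) * F u = ∑ u ∈ S, (D u : ℝ) * F u := by
    intro F
    apply finsum_eq_sum_of_support_subset
    intro u hu
    rw [Function.mem_support] at hu
    simp only [hS, Finite.coe_toFinset, Function.mem_support]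
    intro h0
    exact hu (by simp [h0])
  have hsumG : (∑ᶠ u, (fun z : ℂ => (D u : ℝ) * Real.log ‖z - u‖)) =
      ∑ u ∈ S, (fun z : ℂ => (D u : ℝ) * Real.log ‖z - u‖) := by
    apply finsum_eq_sum_of_support_subset
    intro u hu
    rw [Function.mem_support] at hu
    simp only [hS, Finite.coe_toFinset, Function.mem_support]
    intro h0
    exact hu (by funext z; simp [h0])
  have hDmem : ∀ u ∈ S, u ∈ closedBall c R := by
    intro u hu
    apply D.supportWithinDomain
    simpa [hS] using hu
  have hcongr : Real.circleAverage (fun z => poissonKernel c w z * Real.log ‖f z‖) c R =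
      Real.circleAverage (fun z => (∑ u ∈ S, (D u : ℝ) *
        (poissonKernel c w z * Real.log ‖z - u‖)) + poissonKernel c w z * Real.log ‖g z‖) c R := by
    apply Real.circleAverage_congr_codiscreteWithin _ hR.ne'
    filter_upwards [codiscreteWithin_mono hsph hlog] with z hz
    have e : Real.log ‖f z‖ = (∑ u ∈ S, (D u : ℝ) * Real.log ‖z - u‖) + Real.log ‖g z‖ := by
      have h1 := hz
      have h2 : (∑ᶠ u, (fun z : ℂ => (D u : ℝ) * Real.log ‖z - u‖)) z =
          ∑ u ∈ S, (D u : ℝ) * Real.log ‖z - u‖ := by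
        rw [hsumG, Finset.sum_apply]
      rw [← h2]
      exact h1
    rw [e, mul_add, Finset.mul_sum]
    congr 1
    apply Finset.sum_congr rfl
    intro u _
    ring
  have hintu : ∀ u : ℂ, CircleIntegrable (fun z => poissonKernel c w z * Real.log ‖z - u‖) c R := by
    intro u
    apply PJ_int hw
    exact (analyticOnNhd_id.sub analyticOnNhd_const).meromorphicOn.circleIntegrable_log_norm
  have hintc : ∀ u : ℂ, CircleIntegrable
      (fun z => (D u : ℝ) * (poissonKernel c w z * Real.log ‖z - u‖)) c R := by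
    intro u
    exact IntervalIntegrable.const_mul (hintu u) _
  have hintS : CircleIntegrable (fun z => ∑ u ∈ S, (D u : ℝ) *
        (poissonKernel c w z * Real.log ‖z - u‖)) c R := by
    have : (fun z => ∑ u ∈ S, (D u : ℝ) * (poissonKernel c w z * Real.log ‖z - u‖)) =
        ∑ u ∈ S, fun z => (D u : ℝ) * (poissonKernel c w z * Real.log ‖z - u‖) := by
      funext z; rw [Finset.sum_apply]
    rw [this]
    exact CircleIntegrable.sum S fun u _ => hintc u
  rw [hcongr, Real.circleAverage_fun_add hintS (PJ_int hw hgint)]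
  have hg : Real.circleAverage (fun z => poissonKernel c w z * Real.log ‖g z‖) c R =
      Real.log ‖g w‖ := by
    have hharm : InnerProductSpace.HarmonicOnNhd (fun z : ℂ => Real.log ‖g z‖) (closedBall c R) :=
      fun z hz => AnalyticAt.harmonicAt_log_norm (hg1 z hz) (hg2 ⟨z, hz⟩)
    exact hharm.circleAverage_poissonKernel_smul hw
  have hs : Real.circleAverage (fun z => ∑ u ∈ S, (D u : ℝ) *
        (poissonKernel c w z * Real.log ‖z - u‖)) c R =
      ∑ u ∈ S, (D u : ℝ) *
        Real.log (‖(R : ℂ) ^ 2 - (starRingEnd ℂ) (w - c) * (u - c)‖ / R) := by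
    have : (fun z => ∑ u ∈ S, (D u : ℝ) * (poissonKernel c w z * Real.log ‖z - u‖)) =
        ∑ u ∈ S, fun z => (D u : ℝ) * (poissonKernel c w z * Real.log ‖z - u‖) := by
      funext z; rw [Finset.sum_apply]
    rw [this, Real.circleAverage_sum fun u _ => hintc u]
    apply Finset.sum_congr rfl
    intro u hu
    simp_rw [← smul_eq_mul, Real.circleAverage_fun_smul, smul_eq_mul]
    rw [PJ_single hw (hDmem u hu)]
  rw [hg, hs, hval, hsumF]
  -- the finsum over zeros
  have hDu : ∀ u ∈ closedBall c R, (D u : ℝ) = analyticOrderNatAt f u := by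
    intro u hu
    rw [hD, MeromorphicOn.AnalyticOnNhd.divisor_apply hf hu, analyticOrderNatAt]
    generalize analyticOrderAt f u = m
    induction m using ENat.recTopCoe with
    | top => simp
    | coe a => simp
  have hfs : ∑ᶠ u ∈ {u : ℂ | u ∈ closedBall c R ∧ f u = 0},
          (analyticOrderNatAt f u : ℝ) *
            Real.log (‖(R : ℂ) ^ 2 - (starRingEnd ℂ) (w - c) * (u - c)‖ / (R * ‖w - u‖)) =
      ∑ u ∈ S, (D u : ℝ) *
            Real.log (‖(R : ℂ) ^ 2 - (starRingEnd ℂ) (w - c) * (u - c)‖ / (R * ‖w - u‖)) := by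
    rw [← hsumF (fun u => Real.log (‖(R : ℂ) ^ 2 - (starRingEnd ℂ) (w - c) * (u - c)‖ /
      (R * ‖w - u‖)))]
    rw [finsum_mem_def]
    apply finsum_congr
    intro u
    by_cases hu : u ∈ closedBall c R
    · by_cases h0 : f u = 0
      · rw [indicator_of_mem (show u ∈ {u : ℂ | u ∈ closedBall c R ∧ f u = 0} from ⟨hu, h0⟩),
          hDu u hu]
      · rw [indicator_of_notMem (fun h => h0 h.2), hDu u hu, analyticOrderNatAt,
          (hf u hu).analyticOrderAt_eq_zero.mpr h0]
        simp
    · rw [indicator_of_notMem (fun h => hu h.1)]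
      have : D u = 0 := by
        by_contra h
        exact hu (D.supportWithinDomain h)
      simp [this]
  rw [hfs]
  have hterm : ∀ u ∈ S, (D u : ℝ) *
        Real.log (‖(R : ℂ) ^ 2 - (starRingEnd ℂ) (w - c) * (u - c)‖ / R) =
      (D u : ℝ) * Real.log ‖w - u‖ + (D u : ℝ) *
            Real.log (‖(R : ℂ) ^ 2 - (starRingEnd ℂ) (w - c) * (u - c)‖ / (R * ‖w - u‖)) := by
    intro u hu
    have huB := hDmem u hu
    have hwu : w ≠ u := by
      rintro rfl
      have hDw : D w ≠ 0 := by simpa [hS] using hu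
      apply hDw
      have := hDu w hwcb
      rw [analyticOrderNatAt, (hf w hwcb).analyticOrderAt_eq_zero.mpr hfw] at this
      simpa using this
    have h1 : ‖w - u‖ ≠ 0 := norm_ne_zero_iff.mpr (sub_ne_zero.mpr hwu)
    have h2 : ‖(R : ℂ) ^ 2 - (starRingEnd ℂ) (w - c) * (u - c)‖ ≠ 0 := by
      rw [norm_ne_zero_iff]
      exact PJ_ne hR (by rwa [mem_ball_iff_norm] at hw) (by rwa [mem_closedBall_iff_norm] at huB)
    rw [← mul_add, Real.log_div h2 hR.ne', Real.log_div h2 (mul_ne_zero hR.ne' h1),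
      Real.log_mul hR.ne' h1]
    ring
  rw [Finset.sum_congr rfl hterm, Finset.sum_add_distrib]
  ring

end Pool.Agent.helper84.DM
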